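import Pool.Agent.W93.PP8

/-!
# Prime pairs in progressions, uniformly in the modulus, for random differences in thin sets

Definition used: `Pool.Agent.H560R3.GB.C₂`, the twin prime constant `∏_{p > 2} (1 - 1 / (p - 1) ^ 2)`
(the infimum of the partial products).
-/

set_option autoImplicit false

namespace Pool.Agent.Results.MP_92ef0c_nt.RandomDigitDifferences

open Finset Pool.Agent.H560R3.GB

open Classical in
/-- `π_d(x; a, q)`: the number of primes `p ≤ x` with `p + d ≤ x` prime and `p ≡ a (mod q)`. (For even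
`d > 0` such a prime `p` is automatically odd.) -/
noncomputable def pairs (d : ℕ) (x : ℝ) (a q : ℕ) : ℕ :=
  ((range (⌊x⌋₊ + 1)).filter (fun p => p.Prime ∧ (p + d).Prime ∧ (p : ℝ) + d ≤ x ∧ p ≡ a [MOD q])).card

/-- The main term `M_d(x; q)` of the problem. -/
noncomputable def main (d : ℕ) (x : ℝ) (q : ℕ) : ℝ :=
  2 / (((range q).filter (fun α => Nat.Coprime α q ∧ Nat.Coprime (α + d) q)).card : ℝ) *
    (∏ p ∈ d.primeFactors.filter (fun p => 2 < p), ((p : ℝ) - 1) / ((p : ℝ) - 2)) * C₂ *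
    ∫ t in (2 : ℝ)..x, 1 / Real.log t ^ 2

/-- The estimate of the problem with the bound `X / (log X) ^ C`, for all `x ≤ X`, all moduli
`q ≤ (log X) ^ B`, all admissible classes `a`, and all even `d` with `D ≤ d ≤ D + (log X) ^ A`. -/
def Holds (A B C X D : ℕ) : Prop :=
  ∀ d q a : ℕ, D ≤ d → (d : ℝ) ≤ D + Real.log X ^ A → 0 < d → Even d → 1 ≤ q → (q : ℝ) ≤ Real.log X ^ B →
    Nat.Coprime a q → Nat.Coprime (a + d) q → ∀ x : ℝ, 2 ≤ x → x ≤ X →
    |(pairs d x a q : ℝ) - main d x q| ≤ X / Real.log X ^ C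

open Classical in
/-- The probability of the event `E` if the digits `e 0, ..., e (k - 1)` are chosen independently
of each other from `{0, ..., H - 1}`, and `e j` is equal to `v` with probability `w j v`. -/
noncomputable def Prob (H k : ℕ) (w : ℕ → ℕ → ℝ) (E : (Fin k → ℕ) → Prop) : ℝ :=
  ∑ e ∈ Fintype.piFinset (fun _ : Fin k => range H), if E e then ∏ j : Fin k, w j (e j) else 0

/-- Let `b ≥ 2`, `H`, `B₀`, `A`, `B`, `C`, `U`, `W` and `η > 0` be fixed and let `k` be large. Let the digits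
`e 0, ..., e (k - 1)` be independent random elements of `{0, ..., H - 1}` with arbitrary distributions
(which may depend on the position and on `k`), none of which takes a value with a probability larger than
`1 - η`, let `c ≤ B₀ b ^ k`, and let `X` be a number with
`b ^ k (log X) ^ (C + 6) ≤ X ≤ b ^ k (log X) ^ W`. Then, with a probability of at least `1 - 1 / k ^ U`, the
integer `D = c + ∑ e j b ^ j` has the following property: for all even `d` with
`D ≤ d ≤ D + (log X) ^ A`, all `x ≤ X`, all `q ≤ (log X) ^ B` and all `a` with `(a, q) = (a + d, q) = 1`,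
`|π_d(x; a, q) - M_d(x; q)| ≤ X / (log X) ^ C`. -/
theorem result (b H B₀ A B C U W : ℕ) (hb : 2 ≤ b) (η : ℝ) (hη : 0 < η) :
    ∃ k₀ : ℕ, ∀ k : ℕ, k₀ ≤ k → ∀ w : ℕ → ℕ → ℝ,
      (∀ j < k, (∀ v, 0 ≤ w j v ∧ w j v ≤ 1 - η) ∧ ∑ v ∈ range H, w j v = 1) →
      ∀ X : ℕ, b ^ k ≤ X → (b : ℝ) ^ k * Real.log X ^ (C + 6) ≤ X → (X : ℝ) ≤ (b : ℝ) ^ k * Real.log X ^ W →
      ∀ c : ℕ, c ≤ B₀ * b ^ k →
        Prob H k w (fun e => ¬ Holds A B C X (c + ∑ j, e j * b ^ (j : ℕ))) ≤ 1 / (k : ℝ) ^ U := by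
  classical
  obtain ⟨k₀, h0⟩ := Pool.Agent.W93.PP.pp_final b H A B C U W B₀ hb η hη
  refine ⟨k₀, fun k hk w hw X hX0 hX1 hX2 c hc => ?_⟩
  have h1 := h0 k hk w (fun j hj a => ((hw j hj).1 a).1) (fun j hj a => ((hw j hj).1 a).2) (fun j hj => (hw j hj).2)
    X hX0 hX1 hX2 c hc (fun e => ¬ Holds A B C X (c + ∑ j, e j * b ^ (j : ℕ))) (Classical.decPred _) (by
      intro e _ he hgood
      apply he
      intro d q a hd1 hd2 hd0 hdev hq1 hq2 ha had x hx2 hxX
      obtain ⟨δ, hδ⟩ := Nat.exists_eq_add_of_le hd1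
      subst hδ
      have hδL : (δ : ℝ) ≤ Real.log X ^ A := by
        push_cast at hd2 ⊢
        linarith
      have h2 := hgood δ q a hδL hq1 hq2 ha had hdev.two_dvd hd0.ne' x hx2 hxX
      have e1 : main (c + ∑ j, e j * b ^ (j : ℕ) + δ) x q =
          sing (c + ∑ j, e j * b ^ (j : ℕ) + δ) / Pool.Agent.W93.PP.Cnt q (c + ∑ j, e j * b ^ (j : ℕ) + δ) * Pool.Agent.W93.PP.Li2 x := by
        unfold main sing Pool.Agent.W93.PP.Cnt Pool.Agent.W93.PP.Li2
        ring
      rw [e1]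
      exact h2)
  refine le_trans (le_of_eq ?_) h1
  unfold Prob Pool.Agent.W93.RD.Str Pool.Agent.W93.RD.pw
  apply sum_congr rfl
  intro d _
  split_ifs <;> rfl

end Pool.Agent.Results.MP_92ef0c_nt.RandomDigitDifferences
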